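import Mathlib

/-!
# Hypersurfaces over the function field of a variety `Y` and their specialisations

Definitions. `Y = Spec A` is a variety over a finite field. The hypersurfaces are given by homogeneous
polynomials in `x_0, …, x_m` with coefficients in `A`.
-/

set_option autoImplicit false

open MvPolynomial

namespace Pool.Agent.H11.HS.Stm

section field

variable {F : Type} [Field F] {m : ℕ}

/-- The subfield with `q ^ r` elements of the algebraic closure of the field `F` with `q` elements. -/
def layer (F : Type) [Field F] (r : ℕ) : Set (AlgebraicClosure F) := {x | x ^ (Nat.card F ^ r) = x}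

/-- The number of the zeros of the polynomial with coordinates in the extension of degree `r` of `F`. -/
noncomputable def zeros (G : MvPolynomial (Fin (m + 1)) F) (r : ℕ) : ℕ :=
  Nat.card {x : Fin (m + 1) → AlgebraicClosure F // (∀ i, x i ∈ layer F r) ∧ aeval x G = 0}

/-- The number of the points over the extension of degree `r` of `F` of the projective hypersurface
`G = 0`. -/
noncomputable def points (G : MvPolynomial (Fin (m + 1)) F) (r : ℕ) : ℂ :=
  ((zeros G r : ℂ) - 1) / ((Nat.card F : ℂ) ^ r - 1)

/-- The zeta function in `T = q ^ (-s)` of the projective hypersurface `G = 0` divided by that of the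
projective space of the dimension `m - 1`: the exponential of the sum of the
`(N_r - (1 + q ^ r + … + q ^ (r (m - 1)))) T ^ r / r`, with `N_r` the number of the points over the
extension of degree `r`. -/
noncomputable def Lfun (G : MvPolynomial (Fin (m + 1)) F) : PowerSeries ℂ :=
  (PowerSeries.exp ℂ).subst (PowerSeries.mk fun r : ℕ =>
    (points G r - ∑ i ∈ Finset.range m, (Nat.card F : ℂ) ^ (r * i)) / (r : ℂ))

open Polynomial in
/-- The rational function `L(T)` has a pole at `T = z`: `(T - z) Q(T) L(T) = P(T)` with polynomials `P` and
`Q` such that `P(z) ≠ 0`. -/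
def HasPoleAt (G : MvPolynomial (Fin (m + 1)) F) (z : ℂ) : Prop :=
  ∃ P Q : ℂ[X], P.eval z ≠ 0 ∧
    (((Polynomial.X - Polynomial.C z) * Q : ℂ[X]) : PowerSeries ℂ) * Lfun G = (P : PowerSeries ℂ)

/-- `x` is a singular zero of `G`: the polynomial and its derivatives vanish at `x`. -/
def Singular (G : MvPolynomial (Fin (m + 1)) F) (x : Fin (m + 1) → AlgebraicClosure F) : Prop :=
  aeval x G = 0 ∧ ∀ i, aeval x (pderiv i G) = 0

/-- The projective hypersurface `G = 0` has only finitely many singular points over the algebraic
closure. -/
def FinitelySingular (G : MvPolynomial (Fin (m + 1)) F) : Prop :=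
  ∃ P : Finset (Fin (m + 1) → AlgebraicClosure F), ∀ x, Singular G x → ∃ v ∈ P,
    ∃ l : AlgebraicClosure F, x = l • v

/-- The projective hypersurface `G = 0` is smooth. -/
def Smooth (G : MvPolynomial (Fin (m + 1)) F) : Prop :=
  ∀ x : Fin (m + 1) → AlgebraicClosure F, Singular G x → x = 0

end field

section base

variable {k : Type} [Field k] {A : Type} [CommRing A] [Algebra k A] {m : ℕ}

/-- The residue field of a closed point of `Y = Spec A`. -/
def FieldAt (c : MaximalSpectrum A) : Type := A ⧸ c.asIdeal

attribute [local instance] MaximalSpectrum.isMaximal in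
noncomputable instance fieldAtField (c : MaximalSpectrum A) : Field (FieldAt c) :=
  Ideal.Quotient.field c.asIdeal

/-- The specialisation at `c` of a polynomial with coefficients in `A`. -/
noncomputable def spec (c : MaximalSpectrum A) (G : MvPolynomial (Fin (m + 1)) A) :
    MvPolynomial (Fin (m + 1)) (FieldAt c) :=
  G.map (Ideal.Quotient.mk c.asIdeal : A →+* FieldAt c)

/-- The total space of the family over `Y` of the projective hypersurfaces `G = 0` is regular at all of
its points above `c` (for `Y` regular at `c`): the polynomial does not lie in the square of a maximal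
ideal above `c` of `A[x_0, …, x_m]` other than those which contain all the variables. -/
def RegularAbove (c : MaximalSpectrum A) (G : MvPolynomial (Fin (m + 1)) A) : Prop :=
  ∀ 𝔫 : Ideal (MvPolynomial (Fin (m + 1)) A), 𝔫.IsMaximal → (∀ u ∈ c.asIdeal, C u ∈ 𝔫) →
    (∃ i, X i ∉ 𝔫) → G ∉ 𝔫 ^ 2

/-- The hypersurface `G = 0` of the even dimension `m - 1 = 2 j` is settled at the closed point `c` of
`Y`: its specialisation has only finitely many singular points, the total space is regular above `c`, and
the zeta function of the specialisation, divided by that of the projective space, has no pole with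
`|T| = q ^ (-j)`, that is, on the line `Re s = j`. -/
structure Settled (j : ℕ) (c : MaximalSpectrum A) (G : MvPolynomial (Fin (m + 1)) A) : Prop where
  isolated : FinitelySingular (spec c G)
  regular : RegularAbove c G
  no_pole : ∀ z : ℂ, ‖z‖ = ((Nat.card (FieldAt c) : ℝ) ^ j)⁻¹ → ¬ HasPoleAt (spec c G) z

/-- The homogeneous polynomials of degree `d` with coefficients in `H`. -/
def forms (H : Submodule k A) (m d : ℕ) : Set (MvPolynomial (Fin (m + 1)) A) :=
  {G | G.IsHomogeneous d ∧ ∀ μ, G.coeff μ ∈ H}

end base

end Pool.Agent.H11.HS.Stm
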