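import Pool.Agent.H11.HS.Cnt
import Pool.Agent.H11.HS.Stm
import Pool.Agent.H11.CB.Main

/-!
The seed.
-/

set_option autoImplicit false
set_option linter.unusedSectionVars false

open MvPolynomial

namespace Pool.Agent.H11.HS

open Pool.Agent.H11.HS.Stm

section chain

/-- the form of the seed -/
noncomputable def chain (R : Type) [CommRing R] (d m : ℕ) : MvPolynomial (Fin (m + 1)) R := ev d m X

theorem map_ev {R S : Type} [CommRing R] [CommRing S] (f : R →+* S) (d m : ℕ) (x : Fin (m + 1) → R) :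
    f (ev d m x) = ev d m (fun i => f (x i)) := by
  induction m with
  | zero => rw [ev_zero, ev_zero, map_pow]
  | succ m ih =>
    rw [ev_succ, ev_succ, map_add, ih]
    congr 1
    split_ifs
    · rw [map_zero]
    · rw [map_mul, map_pow]

theorem aeval_chain {R S : Type} [CommRing R] [CommRing S] [Algebra R S] (d m : ℕ)
    (x : Fin (m + 1) → S) : aeval x (chain R d m) = ev d m x := by
  have := map_ev (aeval x : MvPolynomial (Fin (m + 1)) R →ₐ[R] S).toRingHom d m X
  rw [chain]
  refine Eq.trans this ?_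
  congr 1
  funext i
  exact aeval_X _ _

theorem map_chain {R S : Type} [CommRing R] [CommRing S] (f : R →+* S) (d m : ℕ) :
    (chain R d m).map f = chain S d m := by
  rw [chain, map_ev (MvPolynomial.map f), chain]
  congr 1
  funext i
  exact map_X _ _

theorem hom_ev {R : Type} [CommRing R] {d : ℕ} (hd : 1 ≤ d) {n : ℕ} (m : ℕ) (v : Fin (m + 1) → Fin n) :
    (ev d m (fun i => (X (v i) : MvPolynomial (Fin n) R))).IsHomogeneous d := by
  induction m with
  | zero =>
    rw [ev_zero]
    have := (isHomogeneous_X R (v 0)).pow d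
    rwa [one_mul] at this
  | succ m ih =>
    rw [ev_succ]
    refine (ih fun i => v i.succ).add ?_
    split_ifs
    · exact isHomogeneous_zero _ _ _
    · have h := ((isHomogeneous_X R (v 1)).pow (d - 1)).mul (isHomogeneous_X R (v 0))
      rwa [one_mul, Nat.sub_add_cancel hd] at h

theorem hom_chain {R : Type} [CommRing R] {d : ℕ} (hd : 1 ≤ d) (m : ℕ) :
    (chain R d m).IsHomogeneous d := hom_ev hd m id

variable {F : Type} [Field F] [Finite F]

theorem zeros_chain {d : ℕ} (hd : 2 ≤ d) (m : ℕ) {r : ℕ} (hr : 0 < r) :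
    zeros (chain F d m) r = (Nat.card F ^ r) ^ m := by
  classical
  obtain ⟨K, hK, hcard⟩ := Pool.Agent.H11.CB.exists_subfield F hr
  have hqr : 0 < Nat.card F ^ r := pow_pos Nat.card_pos _
  have hKf : Finite K := Nat.finite_of_card_ne_zero (by rw [hcard]; exact hqr.ne')
  have := Fintype.ofFinite K
  have key := count (E := K) hd m
  rw [← Nat.card_eq_fintype_card, hcard] at key
  rw [← key, zeros]
  have h1 : ∑ x : Fin (m + 1) → K, (if ev d m x = 0 then 1 else 0) =
      Nat.card {x : Fin (m + 1) → K // ev d m x = 0} := by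
    rw [Nat.card_eq_fintype_card, Fintype.card_subtype, Finset.card_filter]
  rw [h1]
  refine Nat.card_congr
    { toFun := fun x => ⟨fun i => ⟨x.1 i, (hK _).2 (x.2.1 i)⟩, ?_⟩
      invFun := fun x => ⟨fun i => (x.1 i : AlgebraicClosure F), fun i => (hK _).1 (x.1 i).2, ?_⟩
      left_inv := fun x => rfl
      right_inv := fun x => rfl }
  · have h := x.2.2
    rw [aeval_chain] at h
    apply Subtype.ext
    have h2 := map_ev K.subtype d m (fun i => (⟨x.1 i, (hK _).2 (x.2.1 i)⟩ : K))
    exact h2.trans h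
  · rw [aeval_chain]
    have h2 := map_ev K.subtype d m x.1
    rw [x.2, map_zero] at h2
    exact h2.symm

theorem Lfun_chain {d : ℕ} (hd : 2 ≤ d) (m : ℕ) : Lfun (chain F d m) = 1 := by
  have h1 : (PowerSeries.mk fun r : ℕ => (points (chain F d m) r -
      ∑ i ∈ Finset.range m, (Nat.card F : ℂ) ^ (r * i)) / (r : ℂ)) = 0 := by
    refine PowerSeries.ext fun r => ?_
    rw [PowerSeries.coeff_mk, map_zero]
    rcases Nat.eq_zero_or_pos r with rfl | hr
    · rw [Nat.cast_zero, div_zero]
    · have hq : (Nat.card F : ℂ) ^ r ≠ 1 := by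
        have : 1 < Nat.card F ^ r := Nat.one_lt_pow hr.ne' Finite.one_lt_card
        intro h
        have h2 : Nat.card F ^ r = 1 := by exact_mod_cast h
        omega
      rw [points, zeros_chain hd m hr, Finset.sum_congr rfl fun i _ => pow_mul _ _ _, geom_sum_eq hq]
      push_cast
      rw [sub_self, zero_div]
  rw [Lfun, h1, Pool.Agent.H11.CB.subst_zero', ← PowerSeries.coeff_zero_eq_constantCoeff,
    PowerSeries.coeff_exp]
  simp

theorem no_pole_chain {d : ℕ} (hd : 2 ≤ d) (m : ℕ) (z : ℂ) : ¬ HasPoleAt (chain F d m) z := by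
  rintro ⟨P, Q, hP, h⟩
  rw [Lfun_chain hd, mul_one, Polynomial.coe_inj] at h
  apply hP
  rw [← h, Polynomial.eval_mul, Polynomial.eval_sub, Polynomial.eval_X, Polynomial.eval_C, sub_self,
    zero_mul]

end chain

section crit

variable {B : Type} [CommRing B]

/-- **The critical points of the seed.** -/
theorem crit {𝔫 : Ideal B} (hp : 𝔫.IsPrime) {d : ℕ} (hd : 3 ≤ d) (m : ℕ) :
    ∀ (v : Fin (m + 1) → B) (D : Fin (m + 1) → Derivation ℤ B B),
      (∀ i j, D i (v j) = if i = j then 1 else 0) → ev d m v ∈ 𝔫 → (∀ i, D i (ev d m v) ∈ 𝔫) →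
      ∀ i, (m = 0 ∨ i ≠ 0) → v i ∈ 𝔫 := by
  induction m with
  | zero =>
    intro v D _ h _ i _
    rw [ev_zero] at h
    rw [show i = 0 from Fin.ext (Nat.lt_one_iff.1 i.2)]
    exact hp.mem_of_pow_mem d h
  | succ m ih =>
    intro v D hD h hDh i hi
    have hi0 : i ≠ 0 := by
      rcases hi with h | h
      · omega
      · exact h
    obtain ⟨i, rfl⟩ := Fin.exists_succ_eq.2 hi0
    by_cases hm : m = 0
    · subst hm
      rw [ev_succ, if_pos rfl, add_zero, ev_zero] at h
      rw [show i = 0 from Fin.ext (Nat.lt_one_iff.1 i.2)]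
      exact hp.mem_of_pow_mem d h
    · have hsum : ev d (m + 1) v = ev d m (fun i => v i.succ) + v 1 ^ (d - 1) * v 0 := by
        rw [ev_succ, if_neg hm]
      have hDt : ∀ (δ : Derivation ℤ B B) (n : ℕ) (w : Fin (n + 1) → B), (∀ j, δ (w j) = 0) →
          δ (ev d n w) = 0 := by
        intro δ n
        induction n with
        | zero =>
          intro w hw
          rw [ev_zero, Derivation.leibniz_pow, hw, smul_zero, smul_zero]
        | succ n ihn =>
          intro w hw
          rw [ev_succ, map_add, ihn _ fun j => hw _, zero_add]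
          split_ifs
          · rw [map_zero]
          · rw [Derivation.leibniz, hw, Derivation.leibniz_pow, hw]
            simp
      have h1 : v 1 ∈ 𝔫 := by
        have h2 := hDh 0
        rw [hsum, map_add, hDt (D 0) m _ fun j => by rw [hD, if_neg (Fin.succ_ne_zero j).symm],
          zero_add, Derivation.leibniz, Derivation.leibniz_pow, hD, hD, if_pos rfl,
          if_neg (by rw [← Fin.succ_zero_eq_one']; exact (Fin.succ_ne_zero _).symm)] at h2
        simp only [smul_zero, add_zero, smul_eq_mul, mul_one, mul_zero] at h2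
        exact hp.mem_of_pow_mem _ h2
      have htail : ev d m (fun i => v i.succ) ∈ 𝔫 := by
        have h2 : v 1 ^ (d - 1) * v 0 ∈ 𝔫 := 𝔫.mul_mem_right _ (𝔫.pow_mem_of_mem h1 _ (by omega))
        have := 𝔫.sub_mem h h2
        rwa [hsum, add_sub_cancel_right] at this
      have hDtail : ∀ j : Fin (m + 1), D j.succ (ev d m (fun i => v i.succ)) ∈ 𝔫 := by
        intro j
        have h2 := hDh j.succ
        have h3 : D j.succ (v 1 ^ (d - 1) * v 0) ∈ 𝔫 := by
          rw [Derivation.leibniz, Derivation.leibniz_pow, smul_eq_mul, smul_eq_mul]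
          refine 𝔫.add_mem (𝔫.mul_mem_right _ (𝔫.pow_mem_of_mem h1 _ (by omega))) (𝔫.mul_mem_left _ ?_)
          rw [nsmul_eq_mul, smul_eq_mul]
          exact 𝔫.mul_mem_left _ (𝔫.mul_mem_right _ (𝔫.pow_mem_of_mem h1 _ (by omega)))
        have := 𝔫.sub_mem h2 h3
        rwa [hsum, map_add, add_sub_cancel_right] at this
      by_cases hi2 : i = 0
      · rw [hi2, Fin.succ_zero_eq_one']
        exact h1
      · refine ih (fun i => v i.succ) (fun j => D j.succ) ?_ htail hDtail i (Or.inr hi2)
        intro a b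
        rw [hD]
        simp only [Fin.succ_inj]

theorem ev_sq {𝔫 : Ideal B} {d : ℕ} (hd : 3 ≤ d) (m : ℕ) :
    ∀ v : Fin (m + 1) → B, (∀ i, (m = 0 ∨ i ≠ 0) → v i ∈ 𝔫) → ev d m v ∈ 𝔫 ^ 2 := by
  have hsq : ∀ (w : B) (e : ℕ), w ∈ 𝔫 → 2 ≤ e → w ^ e ∈ 𝔫 ^ 2 := by
    intro w e hw he
    have h2 : w ^ e = w ^ 2 * w ^ (e - 2) := by rw [← pow_add]; congr 1; omega
    rw [h2]
    exact Ideal.mul_mem_right _ _ (Ideal.pow_mem_pow hw 2)
  induction m with
  | zero =>
    intro v hv
    rw [ev_zero]
    exact hsq _ _ (hv 0 (Or.inl rfl)) (by omega)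
  | succ m ih =>
    intro v hv
    rw [ev_succ]
    refine (𝔫 ^ 2).add_mem (ih _ fun i _ => hv _ (Or.inr (Fin.succ_ne_zero i))) ?_
    split_ifs with hm
    · exact (𝔫 ^ 2).zero_mem
    · refine Ideal.mul_mem_right _ _ (hsq _ _ (hv 1 (Or.inr ?_)) (by omega))
      rw [← Fin.succ_zero_eq_one']
      exact Fin.succ_ne_zero _

end crit

end Pool.Agent.H11.HS
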