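import Mathlib

/-!
Numbers of zeros.
-/

set_option autoImplicit false
set_option linter.unusedSectionVars false

namespace Pool.Agent.H11.HS

section count

variable {E : Type} [CommRing E]

/-- the values of the chain -/
def ev (d : ℕ) : (m : ℕ) → (Fin (m + 1) → E) → E
  | 0, x => x 0 ^ d
  | (m + 1), x => ev d m (fun i => x i.succ) + (if m = 0 then 0 else x 1 ^ (d - 1) * x 0)

theorem ev_zero (d : ℕ) (x : Fin 1 → E) : ev d 0 x = x 0 ^ d := rfl

theorem ev_succ (d m : ℕ) (x : Fin (m + 2) → E) :
    ev d (m + 1) x = ev d m (fun i => x i.succ) + (if m = 0 then 0 else x 1 ^ (d - 1) * x 0) := rfl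

theorem sum_cons [Fintype E] {n : ℕ} (f : (Fin (n + 1) → E) → ℕ) :
    ∑ x : Fin (n + 1) → E, f x = ∑ y : Fin n → E, ∑ t : E, f (Fin.cons t y) := by
  rw [← (Fin.consEquiv fun _ : Fin (n + 1) => E).sum_comp, Fintype.sum_prod_type, Finset.sum_comm]
  rfl

end count

section field

variable {E : Type} [Field E] [Fintype E]

theorem line (A B : E) (hB : B ≠ 0) [DecidableEq E] : ∑ t : E, (if A + B * t = 0 then 1 else 0) = 1 := by
  rw [Finset.sum_eq_single (-A / B)]
  · rw [if_pos]
    field_simp
    ring
  · intro t _ ht
    rw [if_neg]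
    intro h
    apply ht
    field_simp
    linear_combination h
  · intro h
    exact absurd (Finset.mem_univ _) h

theorem count {d : ℕ} (hd : 2 ≤ d) [DecidableEq E] (m : ℕ) :
    ∑ x : Fin (m + 1) → E, (if ev d m x = 0 then 1 else 0) = Fintype.card E ^ m := by
  induction m using Nat.strong_induction_on with
  | _ m ih =>
    match m, ih with
    | 0, _ =>
      rw [sum_cons]
      simp only [ev_zero, Fin.cons_zero, pow_zero]
      rw [Fintype.sum_unique]
      have h1 : ∀ t : E, (if t ^ d = 0 then 1 else 0) = if t = 0 then 1 else 0 := by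
        intro t
        simp only [pow_eq_zero_iff (show d ≠ 0 by omega)]
      rw [Finset.sum_congr rfl fun t _ => h1 t, Finset.sum_ite_eq' Finset.univ (0 : E) fun _ => 1,
        if_pos (Finset.mem_univ _)]
    | 1, ih =>
      rw [sum_cons]
      have h0 := ih 0 (by omega)
      rw [pow_zero] at h0
      have h1 : ∀ (y : Fin 1 → E) (t : E), ev d 1 (Fin.cons t y : Fin 2 → E) = ev d 0 y := by
        intro y t
        rw [ev_succ, if_pos rfl, add_zero]
        rfl
      rw [Finset.sum_congr rfl fun y _ => Finset.sum_congr rfl fun t _ => by rw [h1 y t]]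
      rw [Finset.sum_comm, Finset.sum_congr rfl fun t _ => h0, Finset.sum_const, Finset.card_univ,
        smul_eq_mul, mul_one, pow_one]
    | (m + 2), ih =>
      have h0 := ih m (by omega)
      rw [sum_cons, sum_cons]
      have h1 : ∀ (z : Fin (m + 1) → E) (s t : E),
          ev d (m + 2) (Fin.cons t (Fin.cons s z : Fin (m + 2) → E) : Fin (m + 3) → E) =
            (ev d m z + (if m = 0 then 0 else z 0 ^ (d - 1) * s)) + s ^ (d - 1) * t := by
        intro z s t
        rw [ev_succ, if_neg (by omega)]
        congr 1
      have h2 : ∀ (z : Fin (m + 1) → E) (s : E),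
          ∑ t : E, (if ev d (m + 2) (Fin.cons t (Fin.cons s z : Fin (m + 2) → E) : Fin (m + 3) → E) = 0
            then 1 else 0) = if s = 0 then (if ev d m z = 0 then Fintype.card E else 0) else 1 := by
        intro z s
        split_ifs with hs hz
        · rw [Finset.sum_congr rfl fun t _ => by
            rw [h1, hs, zero_pow (by omega : d - 1 ≠ 0), zero_mul, mul_zero, ite_self, add_zero, add_zero,
              if_pos hz], Finset.sum_const, Finset.card_univ, smul_eq_mul, mul_one]
        · refine Finset.sum_eq_zero fun t _ => ?_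
          rw [h1, hs, zero_pow (by omega : d - 1 ≠ 0), zero_mul, mul_zero, ite_self, add_zero, add_zero,
            if_neg hz]
        · rw [Finset.sum_congr rfl fun t _ => by rw [h1]]
          exact line _ _ (pow_ne_zero _ hs)
      rw [Finset.sum_congr rfl fun z _ => Finset.sum_congr rfl fun s _ => h2 z s, Finset.sum_comm]
      have h3 : ∀ s : E, ∑ z : Fin (m + 1) → E,
          (if s = 0 then (if ev d m z = 0 then Fintype.card E else 0) else 1) =
            if s = 0 then Fintype.card E * Fintype.card E ^ m else Fintype.card E ^ (m + 1) := by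
        intro s
        split_ifs with hs
        · rw [← h0, Finset.mul_sum]
          refine Finset.sum_congr rfl fun z _ => ?_
          split_ifs <;> simp
        · rw [Finset.sum_const, Finset.card_univ, smul_eq_mul, mul_one, Fintype.card_fun,
            Fintype.card_fin]
      rw [Finset.sum_congr rfl fun s _ => h3 s, ← pow_succ']
      rw [Finset.sum_congr rfl fun s _ => ite_self _, Finset.sum_const, Finset.card_univ, smul_eq_mul,
        ← pow_succ']

end field

end Pool.Agent.H11.HS
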