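import Pool.Agent.H11.HS.Smooth

/-!
A positive proportion of the hypersurfaces.
-/

set_option autoImplicit false
set_option linter.unusedSectionVars false

open MvPolynomial

namespace Pool.Agent.H11.HS

open Pool.Agent.H11.HS.Stm

section cls

variable {k : Type} [Field k] [Finite k] {A : Type} [CommRing A] [Algebra k A]

/-- the exponents of degree `d` -/
noncomputable def expos (m d : ℕ) : Finset (Fin (m + 1) →₀ ℕ) := Finset.univ.finsuppAntidiag d

theorem mem_expos {m d : ℕ} {μ : Fin (m + 1) →₀ ℕ} : μ ∈ expos m d ↔ μ.degree = d := by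
  rw [expos, Finset.mem_finsuppAntidiag, Finsupp.degree_eq_sum]
  exact ⟨fun h => h.1, fun h => ⟨h, Finset.subset_univ _⟩⟩

/-- **One class.** -/
theorem one_class {R : Type} [CommRing R] [Finite R] (π : A →+* R) (hπ : Function.Surjective π)
    (m d : ℕ) {G₀ : MvPolynomial (Fin (m + 1)) A} (hG₀ : G₀.IsHomogeneous d) :
    ∃ M : ℕ, ∃ H₀ : Submodule k A, Module.Finite k H₀ ∧ ∀ H : Submodule k A, H₀ ≤ H →
      Module.Finite k H → (forms H m d).Finite ∧
        (forms H m d).ncard ≤
          M * {G | G ∈ forms H m d ∧ ∀ μ, π (G.coeff μ) = π (G₀.coeff μ)}.ncard := by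
  classical
  set σ : R → A := Function.surjInv hπ with hσ
  have hπσ : ∀ r, π (σ r) = r := Function.surjInv_eq hπ
  refine ⟨Nat.card (expos m d → R), Submodule.span k (Set.range σ),
    Module.Finite.iff_fg.2 ⟨(Set.finite_range σ).toFinset, by rw [Set.Finite.coe_toFinset]⟩,
    fun H hle hHf => ?_⟩
  have hHfin : Finite H := Module.finite_of_finite k
  have hout : ∀ {G : MvPolynomial (Fin (m + 1)) A}, G.IsHomogeneous d → ∀ μ, μ ∉ expos m d →
      G.coeff μ = 0 := fun {G} hG μ hμ => hG.coeff_eq_zero fun h => hμ (mem_expos.2 h)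
  have hfin : (forms H m d).Finite := by
    refine Set.finite_coe_iff.1 (Finite.of_injective
      (fun G : forms H m d => fun μ : expos m d => (⟨G.1.coeff μ, G.2.2 μ⟩ : H)) ?_)
    intro G G' h
    apply Subtype.ext
    refine MvPolynomial.ext _ _ fun μ => ?_
    by_cases hμ : μ ∈ expos m d
    · have := congrFun h ⟨μ, hμ⟩
      exact congrArg Subtype.val this
    · rw [hout G.2.1 μ hμ, hout G'.2.1 μ hμ]
  refine ⟨hfin, ?_⟩
  set T := {G | G ∈ forms H m d ∧ ∀ μ, π (G.coeff μ) = π (G₀.coeff μ)} with hT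
  have hTf : Finite T := Set.finite_coe_iff.2 (hfin.subset fun G hG => hG.1)
  have hff : Finite (forms H m d) := Set.finite_coe_iff.2 hfin
  set corr : (expos m d → R) → MvPolynomial (Fin (m + 1)) A := fun ρ =>
    ∑ μ : expos m d, monomial μ.1 (σ (π (G₀.coeff μ) - ρ μ)) with hcorr
  have hcc : ∀ ρ μ, (corr ρ).coeff μ =
      if hμ : μ ∈ expos m d then σ (π (G₀.coeff μ) - ρ ⟨μ, hμ⟩) else 0 := by
    intro ρ μ
    rw [hcorr]
    simp only [coeff_sum, coeff_monomial]
    split_ifs with hμ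
    · rw [Finset.sum_eq_single (⟨μ, hμ⟩ : expos m d)]
      · rw [if_pos rfl]
      · intro ν _ hν
        rw [if_neg fun h => hν (Subtype.ext h)]
      · intro h
        exact absurd (Finset.mem_univ _) h
    · refine Finset.sum_eq_zero fun ν _ => ?_
      rw [if_neg fun h : (ν : Fin (m + 1) →₀ ℕ) = μ => hμ (h ▸ ν.2)]
  have hch : ∀ ρ, (corr ρ).IsHomogeneous d := by
    intro ρ
    rw [hcorr]
    exact IsHomogeneous.sum _ _ _ fun μ _ => isHomogeneous_monomial _ (mem_expos.1 μ.2)
  have hσH : ∀ r, σ r ∈ H := fun r => hle (Submodule.subset_span ⟨r, rfl⟩)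
  set res : MvPolynomial (Fin (m + 1)) A → (expos m d → R) := fun G μ => π (G.coeff μ) with hres
  have hmem : ∀ G ∈ forms H m d, G + corr (res G) ∈ T := by
    intro G hG
    refine ⟨⟨hG.1.add (hch _), fun μ => ?_⟩, fun μ => ?_⟩
    · rw [coeff_add, hcc]
      refine H.add_mem (hG.2 μ) ?_
      split_ifs
      · exact hσH _
      · exact H.zero_mem
    · rw [coeff_add, map_add, hcc]
      split_ifs with hμ
      · rw [hπσ, hres]
        ring
      · rw [hout hG.1 μ hμ, hout hG₀ μ hμ, map_zero, add_zero]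
  have hinj : Nat.card (forms H m d) ≤ Nat.card ((expos m d → R) × T) := by
    refine Nat.card_le_card_of_injective
      (fun G : forms H m d => (res G.1, (⟨_, hmem G.1 G.2⟩ : T))) ?_
    intro G G' h
    rw [Prod.mk.injEq, Subtype.mk.injEq] at h
    obtain ⟨h1, h2⟩ := h
    apply Subtype.ext
    rw [h1] at h2
    exact add_right_cancel h2
  rw [Nat.card_prod] at hinj
  exact hinj

end cls

section main

variable {k : Type} [Field k] [Finite k] {A : Type} [CommRing A] [IsDomain A] [Algebra k A]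
  [Algebra.FiniteType k A]

theorem spec_congr {m : ℕ} {c : MaximalSpectrum A} {G G' : MvPolynomial (Fin (m + 1)) A}
    (h : ∀ μ, G.coeff μ - G'.coeff μ ∈ c.asIdeal) : spec c G = spec c G' := by
  rw [spec, spec]
  refine MvPolynomial.ext _ _ fun μ => ?_
  rw [coeff_map, coeff_map]
  exact Ideal.Quotient.eq.2 (h μ)

/-- **A positive proportion is settled.** -/
theorem main (hA : ¬ Module.Finite k A) {j d : ℕ} (hd : 3 ≤ d) {a₀ : A} (ha₀ : a₀ ≠ 0) :
    ∃ M : ℕ, ∃ H₀ : Submodule k A, Module.Finite k H₀ ∧ ∀ H : Submodule k A, H₀ ≤ H →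
      Module.Finite k H → (forms H (2 * j + 1) d).Finite ∧
        (forms H (2 * j + 1) d).ncard ≤ M * {G | G ∈ forms H (2 * j + 1) d ∧
          ∃ c c' : MaximalSpectrum A, a₀ ∉ c.asIdeal ∧ Settled j c G ∧ Smooth (spec c' G)}.ncard := by
  classical
  obtain ⟨c, hc0, hcf, hcf2, η, hη, hη2⟩ := CB.exists_point hA ha₀
  have hη0 : η ≠ 0 := by
    rintro rfl
    exact hη2 (Ideal.zero_mem _)
  obtain ⟨c', hc'0, hcf', -, -⟩ := CB.exists_point hA hη0
  have hcm := c.isMaximal
  have hcm' := c'.isMaximal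
  have hne : c.asIdeal ≠ c'.asIdeal := fun h => hc'0 (h ▸ hη)
  have hcop : IsCoprime (c.asIdeal ^ 2) c'.asIdeal := by
    have : IsCoprime c.asIdeal c'.asIdeal := Ideal.isCoprime_of_isMaximal hne
    exact this.pow_left
  obtain ⟨p, hpc⟩ := CharP.exists k
  have hchar : ∀ (K : Type) [Field K] (φ : k →+* K), CharP K p := fun K _ φ => charP_of_injective_ringHom φ.injective p
  have hC' : CharP (FieldAt c') p :=
    hchar _ ((Ideal.Quotient.mk c'.asIdeal : A →+* FieldAt c').comp (algebraMap k A))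
  have hF : Finite (FieldAt c) := hcf
  -- the form
  obtain ⟨u, hu, e, he, hue⟩ := Ideal.isCoprime_iff_exists.1 hcop
  set m := 2 * j + 1 with hm
  set G₀ : MvPolynomial (Fin (m + 1)) A := C e * lift d m η + C u * goodForm A p d m with hG₀
  have hhom : G₀.IsHomogeneous d := by
    refine IsHomogeneous.add ?_ ?_
    · have h := (isHomogeneous_C (Fin (m + 1)) e).mul (hom_lift (by omega : 1 ≤ d) m η)
      rwa [zero_add] at h
    · have h := (isHomogeneous_C (Fin (m + 1)) u).mul (hom_good (R := A) p (by omega : 1 ≤ d) m)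
      rwa [zero_add] at h
  have h1 : ∀ μ, (lift d m η).coeff μ - G₀.coeff μ ∈ c.asIdeal ^ 2 := by
    intro μ
    have h2 : (lift d m η).coeff μ - G₀.coeff μ =
        u * ((lift d m η).coeff μ - (goodForm A p d m).coeff μ) := by
      rw [hG₀, coeff_add, coeff_C_mul, coeff_C_mul]
      have : e = 1 - u := by rw [← hue]; ring
      rw [this]
      ring
    rw [h2]
    exact Ideal.mul_mem_right _ _ hu
  have h2 : ∀ μ, (goodForm A p d m).coeff μ - G₀.coeff μ ∈ c'.asIdeal := by
    intro μ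
    have h2 : (goodForm A p d m).coeff μ - G₀.coeff μ =
        e * ((goodForm A p d m).coeff μ - (lift d m η).coeff μ) := by
      rw [hG₀, coeff_add, coeff_C_mul, coeff_C_mul]
      have : u = 1 - e := by rw [← hue]; ring
      rw [this]
      ring
    rw [h2]
    exact Ideal.mul_mem_right _ _ he
  set π : A →+* (A ⧸ c.asIdeal ^ 2) × (A ⧸ c'.asIdeal) :=
    (Ideal.Quotient.mk (c.asIdeal ^ 2)).prod (Ideal.Quotient.mk c'.asIdeal) with hπ
  have hπs : Function.Surjective π := by
    rintro ⟨x, y⟩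
    obtain ⟨x, rfl⟩ := Ideal.Quotient.mk_surjective x
    obtain ⟨y, rfl⟩ := Ideal.Quotient.mk_surjective y
    refine ⟨e * x + u * y, ?_⟩
    rw [hπ, RingHom.prod_apply, Prod.mk.injEq]
    constructor
    · rw [Ideal.Quotient.eq]
      have : e * x + u * y - x = u * (y - x) := by
        have : e = 1 - u := by rw [← hue]; ring
        rw [this]
        ring
      rw [this]
      exact Ideal.mul_mem_right _ _ hu
    · rw [Ideal.Quotient.eq]
      have : e * x + u * y - y = e * (x - y) := by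
        have : u = 1 - e := by rw [← hue]; ring
        rw [this]
        ring
      rw [this]
      exact Ideal.mul_mem_right _ _ he
  have hker : ∀ x y : A, π x = π y → x - y ∈ c.asIdeal ^ 2 ∧ x - y ∈ c'.asIdeal := by
    intro x y h
    rw [hπ, RingHom.prod_apply, RingHom.prod_apply, Prod.mk.injEq] at h
    exact ⟨Ideal.Quotient.eq.1 h.1, Ideal.Quotient.eq.1 h.2⟩
  obtain ⟨M, H₀, hH₀, hmain⟩ := one_class (k := k) π hπs m d hhom
  refine ⟨M, H₀, hH₀, fun H hle hHf => ?_⟩
  obtain ⟨hfin, hcount⟩ := hmain H hle hHf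
  refine ⟨hfin, hcount.trans (Nat.mul_le_mul_left _ (Set.ncard_le_ncard ?_
    (hfin.subset fun G hG => hG.1)))⟩
  rintro G ⟨hG, hGc⟩
  refine ⟨hG, c, c', hc0, ?_, ?_⟩
  · have h3 : ∀ μ, (lift d m η).coeff μ - G.coeff μ ∈ c.asIdeal ^ 2 := by
      intro μ
      have h4 := (c.asIdeal ^ 2).sub_mem (h1 μ) (hker _ _ (hGc μ)).1
      rwa [show (lift d m η).coeff μ - G₀.coeff μ - (G.coeff μ - G₀.coeff μ) =
        (lift d m η).coeff μ - G.coeff μ by ring] at h4
    have h5 : spec c G = chain (FieldAt c) d m := by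
      rw [← spec_congr (c := c) fun μ => Ideal.pow_le_self two_ne_zero (h3 μ)]
      obtain ⟨φ, hφ⟩ : ∃ φ : A →+* FieldAt c, φ = (Ideal.Quotient.mk c.asIdeal : A →+* FieldAt c) :=
        ⟨_, rfl⟩
      have hs : ∀ g : MvPolynomial (Fin (m + 1)) A, spec c g = g.map φ := fun g => by rw [hφ]; rfl
      have hφ0 : φ η = 0 := by
        rw [hφ]
        exact Ideal.Quotient.eq_zero_iff_mem.2 hη
      rw [hs, lift, map_add, map_chain, map_mul, map_C, hφ0, C_0, zero_mul, add_zero]
    refine ⟨?_, regular_congr h3 (regular_lift hd (by omega) hη hη2), fun z _ => ?_⟩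
    · rw [h5]
      exact finitelySingular_chain hd
    · rw [h5]
      exact no_pole_chain (by omega) m z
  · have h3 : ∀ μ, (goodForm A p d m).coeff μ - G.coeff μ ∈ c'.asIdeal := by
      intro μ
      have h4 := c'.asIdeal.sub_mem (h2 μ) (hker _ _ (hGc μ)).2
      rwa [show (goodForm A p d m).coeff μ - G₀.coeff μ - (G.coeff μ - G₀.coeff μ) =
        (goodForm A p d m).coeff μ - G.coeff μ by ring] at h4
    have h5 : spec c' G = goodForm (FieldAt c') p d m := by
      rw [← spec_congr (c := c') h3]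
      obtain ⟨φ, hφ⟩ : ∃ φ : A →+* FieldAt c', φ = (Ideal.Quotient.mk c'.asIdeal : A →+* FieldAt c') :=
        ⟨_, rfl⟩
      have hs : ∀ g : MvPolynomial (Fin (m + 1)) A, spec c' g = g.map φ := fun g => by rw [hφ]; rfl
      rw [hs, map_good]
    rw [h5]
    exact smooth_good hd m

end main

end Pool.Agent.H11.HS
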