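import Pool.Agent.H11.HS.Chain

/-!
Regularity of the total space.
-/

set_option autoImplicit false
set_option linter.unusedSectionVars false

open MvPolynomial

namespace Pool.Agent.H11.HS

open Pool.Agent.H11.HS.Stm Pool.Agent.H11.CB

section onevar

variable {A : Type} [CommRing A]

open Polynomial in
theorem one_var {c : Ideal A} (hc : c.IsMaximal) {𝔮 : Ideal A[X]} (hq : 𝔮 ≠ ⊤)
    (hle : ∀ u ∈ c, Polynomial.C u ∈ 𝔮) {η : A} (h : Polynomial.C η ∈ 𝔮 ^ 2) : η ∈ c ^ 2 := by
  classical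
  let := Ideal.Quotient.field c
  set φ : A[X] →+* (A ⧸ c)[X] := Polynomial.mapRingHom (Ideal.Quotient.mk c) with hφ
  have hφs : Function.Surjective φ := Polynomial.map_surjective _ Ideal.Quotient.mk_surjective
  have hker : ∀ f : A[X], φ f = 0 → f ∈ Ideal.map (Polynomial.C : A →+* A[X]) c := by
    intro f hf
    rw [Ideal.mem_map_C_iff]
    intro j
    have := congrArg (fun g => Polynomial.coeff g j) hf
    simp only [hφ, Polynomial.coe_mapRingHom, Polynomial.coeff_map, Polynomial.coeff_zero] at this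
    exact Ideal.Quotient.eq_zero_iff_mem.1 this
  have hmap : Ideal.map (Polynomial.C : A →+* A[X]) c ≤ 𝔮 := by
    rw [Ideal.map_le_iff_le_comap]
    exact hle
  obtain ⟨g, hg⟩ := (IsPrincipalIdealRing.principal (𝔮.map φ)).principal
  have hmem : ∀ f ∈ 𝔮, ∃ h, φ f = g * h := by
    intro f hf
    have : φ f ∈ 𝔮.map φ := Ideal.mem_map_of_mem _ hf
    rw [hg] at this
    obtain ⟨h, hh⟩ := Ideal.mem_span_singleton.1 this
    exact ⟨h, hh⟩
  by_cases hg0 : g = 0
  · have h1 : 𝔮 ≤ Ideal.map (Polynomial.C : A →+* A[X]) c := by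
      intro f hf
      obtain ⟨h, hh⟩ := hmem f hf
      exact hker f (by rw [hh, hg0, zero_mul])
    have h2 : Polynomial.C η ∈ Ideal.map (Polynomial.C : A →+* A[X]) (c ^ 2) := by
      rw [Ideal.map_pow]
      exact Ideal.pow_right_mono h1 2 h
    rw [Ideal.mem_map_C_iff] at h2
    have := h2 0
    rwa [Polynomial.coeff_C_zero] at this
  · -- a monic lift
    set g' := g * Polynomial.C g.leadingCoeff⁻¹ with hg'
    have hmon : g'.Monic := Polynomial.monic_mul_leadingCoeff_inv hg0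
    obtain ⟨G, hG, hGdeg, hGmon⟩ := Polynomial.lifts_and_natDegree_eq_and_monic
      (Polynomial.map_surjective _ Ideal.Quotient.mk_surjective g' : g' ∈ Polynomial.lifts (Ideal.Quotient.mk c)) hmon
    have hGq : G ∈ 𝔮 := by
      have h1 : φ G ∈ 𝔮.map φ := by
        rw [hg, hφ, Polynomial.coe_mapRingHom, hG]
        exact Ideal.mul_mem_right _ _ (Ideal.mem_span_singleton_self g)
      obtain ⟨f, hf, hfe⟩ := (Ideal.mem_map_iff_of_surjective φ hφs).1 h1
      have h2 := hmap (hker (G - f) (by rw [map_sub, hfe, sub_self]))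
      have := 𝔮.add_mem h2 hf
      rwa [sub_add_cancel] at this
    have hdeg : 0 < G.natDegree := by
      rcases Nat.eq_zero_or_pos G.natDegree with h0 | h0
      · exfalso
        rw [Polynomial.Monic.natDegree_eq_zero hGmon] at h0
        rw [h0] at hGq
        exact hq ((Ideal.eq_top_iff_one _).2 hGq)
      · exact h0
    have h1 : 𝔮 ≤ Ideal.span {G} ⊔ Ideal.map (Polynomial.C : A →+* A[X]) c := by
      intro f hf
      obtain ⟨h, hh⟩ := hmem f hf
      obtain ⟨h', hh'⟩ := hφs (Polynomial.C g.leadingCoeff * h)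
      have e : φ f = φ (G * h') := by
        rw [map_mul, hh', hφ, Polynomial.coe_mapRingHom, hG, ← Polynomial.coe_mapRingHom, ← hφ, hh, hg',
          mul_assoc, ← mul_assoc (Polynomial.C _) (Polynomial.C _), ← Polynomial.C_mul,
          inv_mul_cancel₀ (Polynomial.leadingCoeff_ne_zero.2 hg0), Polynomial.C_1, one_mul]
      have h3 := hker (f - G * h') (by rw [map_sub, e, sub_self])
      have h4 : f = G * h' + (f - G * h') := by ring
      rw [h4]
      exact Ideal.add_mem _ (Ideal.mem_sup_left (Ideal.mul_mem_right _ _ (Ideal.mem_span_singleton_self G)))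
        (Ideal.mem_sup_right h3)
    have h2 : 𝔮 ^ 2 ≤ Ideal.span {G} ⊔ Ideal.map (Polynomial.C : A →+* A[X]) (c ^ 2) := by
      refine (Ideal.pow_right_mono h1 2).trans ?_
      rw [sq, Ideal.sup_mul, Ideal.mul_sup, Ideal.mul_sup, Ideal.map_pow, sq]
      refine sup_le (sup_le ?_ ?_) (sup_le ?_ ?_)
      · exact Ideal.mul_le_left.trans le_sup_left
      · exact Ideal.mul_le_left.trans le_sup_left
      · exact Ideal.mul_le_right.trans le_sup_left
      · exact le_sup_right
    obtain ⟨u, hu, w, hw, huw⟩ := Submodule.mem_sup.1 (h2 h)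
    obtain ⟨h', rfl⟩ := Ideal.mem_span_singleton.1 hu
    have h3 : Polynomial.C (Ideal.Quotient.mk (c ^ 2) η) =
        G.map (Ideal.Quotient.mk (c ^ 2)) * h'.map (Ideal.Quotient.mk (c ^ 2)) := by
      rw [← Polynomial.map_C, ← huw, Polynomial.map_add, Polynomial.map_mul]
      have : w.map (Ideal.Quotient.mk (c ^ 2)) = 0 := by
        refine Polynomial.ext fun j => ?_
        rw [Polynomial.coeff_map, Polynomial.coeff_zero, Ideal.Quotient.eq_zero_iff_mem]
        exact Ideal.mem_map_C_iff.1 hw j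
      rw [this, add_zero]
    rw [← Ideal.Quotient.eq_zero_iff_mem]
    by_contra hne
    have hnt : Nontrivial (A ⧸ c ^ 2) := ⟨⟨_, _, hne⟩⟩
    have hGm := hGmon.map (Ideal.Quotient.mk (c ^ 2))
    have hh0 : h'.map (Ideal.Quotient.mk (c ^ 2)) ≠ 0 := by
      intro h0
      rw [h0, mul_zero, Polynomial.C_eq_zero] at h3
      exact hne h3
    have h4 := congrArg Polynomial.natDegree h3
    rw [Polynomial.natDegree_C, hGm.natDegree_mul' hh0, hGmon.natDegree_map] at h4
    omega

end onevar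

section reg

variable {k : Type} [Field k] {A : Type} [CommRing A]

/-- the lift of the seed -/
noncomputable def lift (d m : ℕ) (η : A) : MvPolynomial (Fin (m + 1)) A :=
  chain A d m + C η * X 0 ^ d

theorem hom_lift {d : ℕ} (hd : 1 ≤ d) (m : ℕ) (η : A) : (lift d m η).IsHomogeneous d := by
  refine (hom_chain hd m).add ?_
  have h := (isHomogeneous_C (Fin (m + 1)) η).mul ((isHomogeneous_X A (0 : Fin (m + 1))).pow d)
  rwa [zero_add, one_mul] at h

/-- the substitution -/
noncomputable def toOne (m : ℕ) : MvPolynomial (Fin (m + 1)) A →+* Polynomial A :=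
  MvPolynomial.eval₂Hom Polynomial.C (fun i => if i = 0 then Polynomial.X else 0)

/-- the substitution back -/
noncomputable def ofOne (m : ℕ) : Polynomial A →+* MvPolynomial (Fin (m + 1)) A :=
  Polynomial.eval₂RingHom (C : A →+* MvPolynomial (Fin (m + 1)) A) (X 0)

theorem C_mem_sq {c : Ideal A} (hc : c.IsMaximal) {m : ℕ} {𝔫 : Ideal (MvPolynomial (Fin (m + 1)) A)}
    (hn : 𝔫.IsPrime) (hle : ∀ u ∈ c, C u ∈ 𝔫) (hX : ∀ i, i ≠ 0 → X i ∈ 𝔫) {η : A} (h : C η ∈ 𝔫 ^ 2) :
    η ∈ c ^ 2 := by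
  have hp : (𝔫.comap (ofOne m)).IsPrime := Ideal.comap_isPrime _ _
  refine one_var hc (𝔮 := 𝔫.comap (ofOne m)) hp.ne_top ?_ ?_
  · intro u hu
    rw [Ideal.mem_comap, ofOne, Polynomial.coe_eval₂RingHom, Polynomial.eval₂_C]
    exact hle u hu
  · have key : ∀ f ∈ 𝔫, toOne m f ∈ 𝔫.comap (ofOne m) := by
      intro f hf
      have e : Ideal.Quotient.mk 𝔫 = ((Ideal.Quotient.mk 𝔫).comp (ofOne m)).comp (toOne m) := by
        refine MvPolynomial.ringHom_ext ?_ ?_
        · intro r
          simp [toOne, ofOne]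
        · intro i
          by_cases hi : i = 0
          · subst hi
            simp [toOne, ofOne]
          · have : Ideal.Quotient.mk 𝔫 (X i) = 0 := Ideal.Quotient.eq_zero_iff_mem.2 (hX i hi)
            simp [toOne, ofOne, hi, this]
      rw [Ideal.mem_comap, ← Ideal.Quotient.eq_zero_iff_mem]
      have := RingHom.congr_fun e f
      rw [Ideal.Quotient.eq_zero_iff_mem.2 hf] at this
      exact this.symm
    have h2 : toOne m (C η) ∈ (𝔫 ^ 2).map (toOne m) := Ideal.mem_map_of_mem _ h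
    have h3 : toOne m (C η) = Polynomial.C η := by simp [toOne]
    rw [h3, Ideal.map_pow] at h2
    refine Ideal.pow_right_mono ?_ 2 h2
    rw [Ideal.map_le_iff_le_comap]
    exact key

theorem regular_lift {d m : ℕ} (hd : 3 ≤ d) (hm : 0 < m) {c : MaximalSpectrum A} {η : A}
    (hη : η ∈ c.asIdeal) (hη2 : η ∉ c.asIdeal ^ 2) : RegularAbove c (lift d m η) := by
  intro 𝔫 hmax hle hX hf
  have hp := hmax.isPrime
  have hCη : C η ∈ 𝔫 := hle η hη
  have hδ : ∀ i j : Fin (m + 1), pd (A := A) i (X j) = if i = j then 1 else 0 := by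
    intro i j
    split_ifs with h
    · rw [h, pd_X_self]
    · exact pd_X_ne fun e => h e.symm
  have h0 : chain A d m ∈ 𝔫 := by
    have h1 : lift d m η ∈ 𝔫 := Ideal.pow_le_self two_ne_zero hf
    have := 𝔫.sub_mem h1 (𝔫.mul_mem_right (X 0 ^ d) hCη)
    rwa [lift, add_sub_cancel_right] at this
  have hD : ∀ i, pd i (chain A d m) ∈ 𝔫 := by
    intro i
    have h1 := der_mem (pd i) hf
    have h2 : pd i (C η * X 0 ^ d) ∈ 𝔫 := by
      rw [Derivation.leibniz, pd_C, smul_zero, add_zero, smul_eq_mul]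
      exact 𝔫.mul_mem_right _ hCη
    have h3 : pd i (chain A d m) = pd i (lift d m η) - pd i (C η * X 0 ^ d) := by
      rw [← map_sub, lift, add_sub_cancel_right]
    rw [h3]
    exact 𝔫.sub_mem h1 h2
  have hvars := crit hp hd m X pd hδ h0 hD
  have hvars' : ∀ i : Fin (m + 1), i ≠ 0 → X i ∈ 𝔫 := fun i hi => hvars i (Or.inr hi)
  have hX0 : (X 0 : MvPolynomial (Fin (m + 1)) A) ∉ 𝔫 := by
    obtain ⟨i, hi⟩ := hX
    by_cases h : i = 0
    · rwa [h] at hi
    · exact absurd (hvars' i h) hi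
  have hsq : chain A d m ∈ 𝔫 ^ 2 := ev_sq hd m X fun i hi => by
    rcases hi with h | h
    · omega
    · exact hvars' i h
  have hηX : C η * X 0 ^ d ∈ 𝔫 ^ 2 := by
    have := (𝔫 ^ 2).sub_mem hf hsq
    rwa [lift, add_sub_cancel_left] at this
  have hη3 : C η ∈ 𝔫 ^ 2 := by
    have hXd : (X 0 : MvPolynomial (Fin (m + 1)) A) ^ d ∉ 𝔫 := fun h => hX0 (hp.mem_of_pow_mem d h)
    obtain ⟨u, e, he, hu⟩ := hmax.exists_inv hXd
    have h1 : C η * e ^ 2 ∈ 𝔫 ^ 2 := Ideal.mul_mem_left _ _ (Ideal.pow_mem_pow he 2)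
    have h2 : C η * X 0 ^ d * (u * (1 + e)) ∈ 𝔫 ^ 2 := Ideal.mul_mem_right _ _ hηX
    have h3 : (C η : MvPolynomial (Fin (m + 1)) A) = C η * X 0 ^ d * (u * (1 + e)) + C η * e ^ 2 := by
      have : u * X 0 ^ d = 1 - e := by rw [← hu]; ring
      calc (C η : MvPolynomial (Fin (m + 1)) A) = C η * ((1 - e) * (1 + e)) + C η * e ^ 2 := by ring
        _ = C η * ((u * X 0 ^ d) * (1 + e)) + C η * e ^ 2 := by rw [this]
        _ = _ := by ring
    rw [h3]
    exact (𝔫 ^ 2).add_mem h2 h1
  exact hη2 (C_mem_sq c.isMaximal hp hle hvars' hη3)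

/-- the regularity depends only on the coefficients modulo the square -/
theorem regular_congr {m : ℕ} {c : MaximalSpectrum A} {G G' : MvPolynomial (Fin (m + 1)) A}
    (h : ∀ μ, G.coeff μ - G'.coeff μ ∈ c.asIdeal ^ 2) (hG : RegularAbove c G) : RegularAbove c G' := by
  intro 𝔫 hm hle hX hf
  refine hG 𝔫 hm hle hX ?_
  have h1 : G - G' ∈ 𝔫 ^ 2 := by
    have h2 : Ideal.map (C : A →+* MvPolynomial (Fin (m + 1)) A) (c.asIdeal ^ 2) ≤ 𝔫 ^ 2 := by
      rw [Ideal.map_pow]
      refine Ideal.pow_right_mono ?_ 2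
      rw [Ideal.map_le_iff_le_comap]
      exact hle
    refine h2 (MvPolynomial.mem_map_C_iff.2 fun μ => ?_)
    rw [coeff_sub]
    exact h μ
  have := (𝔫 ^ 2).add_mem h1 hf
  rwa [sub_add_cancel] at this

end reg

section isolated

variable {F : Type} [Field F]

theorem singular_chain {d m : ℕ} (hd : 3 ≤ d) {x : Fin (m + 1) → AlgebraicClosure F}
    (hx : Singular (chain F d m) x) : ∀ i, i ≠ 0 → x i = 0 := by
  intro i hi
  set θ : MvPolynomial (Fin (m + 1)) F →+* AlgebraicClosure F :=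
    (aeval x : MvPolynomial (Fin (m + 1)) F →ₐ[F] AlgebraicClosure F).toRingHom with hθ
  have hp : (RingHom.ker θ).IsPrime := RingHom.ker_isPrime θ
  have hδ : ∀ i j : Fin (m + 1), pd (A := F) i (X j) = if i = j then 1 else 0 := by
    intro i j
    split_ifs with h
    · rw [h, pd_X_self]
    · exact pd_X_ne fun e => h e.symm
  have := crit hp hd m X pd hδ (RingHom.mem_ker.2 hx.1) (fun i => RingHom.mem_ker.2 (hx.2 i)) i (Or.inr hi)
  rw [RingHom.mem_ker] at this
  have h2 : θ (X i) = x i := aeval_X _ _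
  rwa [h2] at this

theorem finitelySingular_chain {d m : ℕ} (hd : 3 ≤ d) :
    FinitelySingular (chain F d m) := by
  classical
  refine ⟨{Pi.single 0 1}, fun x hx => ⟨_, Finset.mem_singleton_self _, x 0, ?_⟩⟩
  funext i
  rw [Pi.smul_apply, smul_eq_mul]
  by_cases hi : i = 0
  · rw [hi, Pi.single_eq_same, mul_one]
  · rw [singular_chain hd hx i hi, Pi.single_eq_of_ne hi, mul_zero]

end isolated

end Pool.Agent.H11.HS
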