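import Pool.Agent.H11.HS.Reg

/-!
Smooth forms.
-/

set_option autoImplicit false
set_option linter.unusedSectionVars false

open MvPolynomial

namespace Pool.Agent.H11.HS

open Pool.Agent.H11.HS.Stm Pool.Agent.H11.CB

section gab

variable {E : Type} [CommRing E]

/-- the values of the form of Gabber -/
def gv (d : ℕ) : (m : ℕ) → (Fin (m + 1) → E) → E
  | 0, x => x 0 ^ d
  | (m + 1), x => gv d m (fun i => x i.succ) + x 1 * x 0 ^ (d - 1)

theorem gv_zero (d : ℕ) (x : Fin 1 → E) : gv d 0 x = x 0 ^ d := rfl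

theorem gv_succ (d m : ℕ) (x : Fin (m + 2) → E) :
    gv d (m + 1) x = gv d m (fun i => x i.succ) + x 1 * x 0 ^ (d - 1) := rfl

theorem map_gv {R S : Type} [CommRing R] [CommRing S] (f : R →+* S) (d m : ℕ) (x : Fin (m + 1) → R) :
    f (gv d m x) = gv d m (fun i => f (x i)) := by
  induction m with
  | zero => rw [gv_zero, gv_zero, map_pow]
  | succ m ih => rw [gv_succ, gv_succ, map_add, ih, map_mul, map_pow]

theorem hom_gv {R : Type} [CommRing R] {d : ℕ} (hd : 1 ≤ d) {n : ℕ} (m : ℕ) (v : Fin (m + 1) → Fin n) :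
    (gv d m (fun i => (X (v i) : MvPolynomial (Fin n) R))).IsHomogeneous d := by
  induction m with
  | zero =>
    rw [gv_zero]
    have := (isHomogeneous_X R (v 0)).pow d
    rwa [one_mul] at this
  | succ m ih =>
    rw [gv_succ]
    refine (ih fun i => v i.succ).add ?_
    have h := (isHomogeneous_X R (v 1)).mul ((isHomogeneous_X R (v 0)).pow (d - 1))
    rwa [one_mul, show 1 + (d - 1) = d by omega] at h

/-- all variables except the last one vanish at a singular point -/
theorem gv_crit {𝔫 : Ideal E} (hp : 𝔫.IsPrime) {d : ℕ} (hd : 3 ≤ d) (hdE : (d : E) = 0) (m : ℕ) :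
    ∀ (v : Fin (m + 1) → E) (D : Fin (m + 1) → Derivation ℤ E E),
      (∀ i j, D i (v j) = if i = j then 1 else 0) → (∀ i, i ≠ 0 → D i (gv d m v) ∈ 𝔫) →
      ∀ i, i ≠ Fin.last m → v i ∈ 𝔫 := by
  induction m with
  | zero =>
    intro v D _ _ i hi
    exact absurd (Fin.ext (Nat.lt_one_iff.1 i.2)) hi
  | succ m ih =>
    intro v D hD hDv i hi
    have hDt : ∀ (δ : Derivation ℤ E E) (n : ℕ) (w : Fin (n + 1) → E), (∀ j, δ (w j) = 0) →
        δ (gv d n w) = 0 := by
      intro δ n
      induction n with
      | zero =>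
        intro w hw
        rw [gv_zero, Derivation.leibniz_pow, hw, smul_zero, smul_zero]
      | succ n ihn =>
        intro w hw
        rw [gv_succ, map_add, ihn _ fun j => hw _, zero_add, Derivation.leibniz, hw,
          Derivation.leibniz_pow, hw]
        simp
    -- the derivatives of the tail
    have hs : ∀ j : Fin (m + 1), D j.succ (gv d (m + 1) v) =
        D j.succ (gv d m (fun i => v i.succ)) + (if j = 0 then v 0 ^ (d - 1) else 0) := by
      intro j
      rw [gv_succ, map_add]
      congr 1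
      rw [Derivation.leibniz, Derivation.leibniz_pow, hD, hD, if_neg (Fin.succ_ne_zero j)]
      have e1 : (j.succ = (1 : Fin (m + 2))) ↔ j = 0 := by
        rw [← Fin.succ_zero_eq_one', Fin.succ_inj]
      by_cases hj : j = 0
      · rw [if_pos (e1.2 hj), if_pos hj]
        simp
      · rw [if_neg (fun h => hj (e1.1 h)), if_neg hj]
        simp
    have htail : ∀ i : Fin (m + 1), i ≠ Fin.last m → v i.succ ∈ 𝔫 := by
      refine ih (fun i => v i.succ) (fun j => D j.succ) ?_ ?_
      · intro a b
        rw [hD]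
        simp only [Fin.succ_inj]
      · intro j hj
        have := hDv j.succ (Fin.succ_ne_zero j)
        rwa [hs, if_neg hj, add_zero] at this
    by_cases hi0 : i = 0
    · rw [hi0]
      have h1 := hDv (Fin.succ 0) (Fin.succ_ne_zero 0)
      rw [hs, if_pos rfl] at h1
      have h2 : D (Fin.succ 0) (gv d m (fun i => v i.succ)) ∈ 𝔫 := by
        match m, D, v, hD, htail with
        | 0, D, v, hD, _ =>
          rw [gv_zero, Derivation.leibniz_pow, nsmul_eq_mul, hdE, zero_mul]
          exact 𝔫.zero_mem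
        | (m + 1), D, v, hD, htail =>
          have h3 : v (Fin.succ 0) ∈ 𝔫 := htail 0 (by
            intro h
            have := congrArg Fin.val h
            simp at this)
          rw [gv_succ, map_add, hDt _ m _ fun j => by
            rw [hD, if_neg]
            intro h
            rw [Fin.succ_inj] at h
            exact (Fin.succ_ne_zero j) h.symm, zero_add, Derivation.leibniz, Derivation.leibniz_pow]
          refine 𝔫.add_mem ?_ ?_
          · rw [smul_eq_mul, nsmul_eq_mul, smul_eq_mul]
            exact 𝔫.mul_mem_left _ (𝔫.mul_mem_left _ (𝔫.mul_mem_right _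
              (𝔫.pow_mem_of_mem h3 _ (by omega))))
          · rw [smul_eq_mul]
            exact 𝔫.mul_mem_right _ (𝔫.pow_mem_of_mem h3 _ (by omega))
      have h3 := 𝔫.sub_mem h1 h2
      rw [add_sub_cancel_left] at h3
      exact hp.mem_of_pow_mem _ h3
    · obtain ⟨j, rfl⟩ := Fin.exists_succ_eq.2 hi0
      refine htail j fun h => hi ?_
      rw [h, Fin.succ_last]

theorem gv_last {𝔫 : Ideal E} (hp : 𝔫.IsPrime) {d : ℕ} (hd : 3 ≤ d) (m : ℕ) :
    ∀ v : Fin (m + 1) → E, (∀ i, i ≠ Fin.last m → v i ∈ 𝔫) → gv d m v ∈ 𝔫 → v (Fin.last m) ∈ 𝔫 := by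
  induction m with
  | zero =>
    intro v _ h
    rw [gv_zero] at h
    exact hp.mem_of_pow_mem _ h
  | succ m ih =>
    intro v hv h
    rw [gv_succ] at h
    have h0 : v 0 ∈ 𝔫 := hv 0 (by
      intro h
      have := congrArg Fin.val h
      simp at this)
    have h1 : v 1 * v 0 ^ (d - 1) ∈ 𝔫 := 𝔫.mul_mem_left _ (𝔫.pow_mem_of_mem h0 _ (by omega))
    have h2 := 𝔫.sub_mem h h1
    rw [add_sub_cancel_right] at h2
    have := ih (fun i => v i.succ) (fun i hi => hv _ fun h => hi (by
      rw [← Fin.succ_last] at h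
      exact Fin.succ_inj.1 h)) h2
    rwa [Fin.succ_last] at this

end gab

section good

/-- a smooth form -/
noncomputable def goodForm (R : Type) [CommRing R] (p d m : ℕ) : MvPolynomial (Fin (m + 1)) R :=
  if p ∣ d then gv d m X else ∑ i, X i ^ d

theorem hom_good {R : Type} [CommRing R] (p : ℕ) {d : ℕ} (hd : 1 ≤ d) (m : ℕ) :
    (goodForm R p d m).IsHomogeneous d := by
  rw [goodForm]
  split_ifs
  · exact hom_gv hd m id
  · refine IsHomogeneous.sum _ _ _ fun i _ => ?_
    have := (isHomogeneous_X R i).pow d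
    rwa [one_mul] at this

theorem map_good {R S : Type} [CommRing R] [CommRing S] (f : R →+* S) (p d m : ℕ) :
    (goodForm R p d m).map f = goodForm S p d m := by
  rw [goodForm, goodForm]
  split_ifs
  · rw [map_gv (MvPolynomial.map f)]
    congr 1
    funext i
    exact map_X _ _
  · rw [map_sum]
    refine Finset.sum_congr rfl fun i _ => ?_
    rw [map_pow, map_X]

theorem smooth_good {F : Type} [Field F] {p : ℕ} [CharP F p] {d : ℕ} (hd : 3 ≤ d) (m : ℕ) :
    Smooth (goodForm F p d m) := by
  intro x hx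
  set θ : MvPolynomial (Fin (m + 1)) F →+* AlgebraicClosure F :=
    (aeval x : MvPolynomial (Fin (m + 1)) F →ₐ[F] AlgebraicClosure F).toRingHom with hθ
  have hp : (RingHom.ker θ).IsPrime := RingHom.ker_isPrime θ
  have hθX : ∀ i, θ (X i) = x i := fun i => aeval_X _ _
  have h0 : goodForm F p d m ∈ RingHom.ker θ := RingHom.mem_ker.2 hx.1
  have hD : ∀ i, pd i (goodForm F p d m) ∈ RingHom.ker θ := fun i => RingHom.mem_ker.2 (hx.2 i)
  have hδ : ∀ i j : Fin (m + 1), pd (A := F) i (X j) = if i = j then 1 else 0 := by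
    intro i j
    split_ifs with h
    · rw [h, pd_X_self]
    · exact pd_X_ne fun e => h e.symm
  funext i
  rw [Pi.zero_apply, ← hθX, ← RingHom.mem_ker]
  rw [goodForm] at h0 hD
  split_ifs at h0 hD with hpd
  · have hd0 : (d : MvPolynomial (Fin (m + 1)) F) = 0 := by
      rw [← map_natCast (C : F →+* MvPolynomial (Fin (m + 1)) F), (CharP.cast_eq_zero_iff F p d).2 hpd,
        map_zero]
    have h1 := gv_crit hp hd hd0 m X pd hδ (fun i _ => hD i)
    by_cases hi : i = Fin.last m
    · rw [hi]
      exact gv_last hp hd m X h1 h0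
    · exact h1 i hi
  · have h1 := hD i
    have h2 : pd i (∑ j, (X j : MvPolynomial (Fin (m + 1)) F) ^ d) = (d : MvPolynomial (Fin (m + 1)) F) * X i ^ (d - 1) := by
      rw [map_sum, Finset.sum_eq_single i]
      · rw [Derivation.leibniz_pow, hδ, if_pos rfl]
        simp
      · intro j _ hj
        rw [Derivation.leibniz_pow, hδ, if_neg fun h => hj h.symm]
        simp
      · intro h
        exact absurd (Finset.mem_univ _) h
    have hu : IsUnit (d : MvPolynomial (Fin (m + 1)) F) := by
      rw [← map_natCast (C : F →+* MvPolynomial (Fin (m + 1)) F)]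
      refine (isUnit_iff_ne_zero.2 ?_).map _
      rwa [Ne, CharP.cast_eq_zero_iff F p d]
    exact mem_of_pow_unit hp hu (h2 ▸ h1)

end good

end Pool.Agent.H11.HS
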